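import Pool.Agent.H145Z.FP.I

set_option autoImplicit false

open Filter Topology

/-- There is a real Banach space with a normalized Schauder basis `e` (biorthogonal functionals
`e'`) that has the factorization property but not the uniform factorization property. -/
theorem Pool.Agent.Results.MP_15e1ec_an.ANotUniform.result :
    ∃ (X : Type) (_ : NormedAddCommGroup X) (_ : NormedSpace ℝ X) (_ : CompleteSpace X)
      (e : ℕ → X) (e' : ℕ → (X →L[ℝ] ℝ)),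
      (∀ i j : ℕ, e' i (e j) = if i = j then (1 : ℝ) else 0) ∧
      (∀ x : X, Tendsto (fun N : ℕ => ∑ n ∈ Finset.range N, e' n x • e n) atTop (𝓝 x)) ∧
      (∀ n : ℕ, ‖e n‖ = 1) ∧
      (∀ T : X →L[ℝ] X, (∃ δ : ℝ, 0 < δ ∧ ∀ n : ℕ, δ ≤ |e' n (T (e n))|) →
        ∃ R S : X →L[ℝ] X, S.comp (T.comp R) = ContinuousLinearMap.id ℝ X) ∧
      ¬ (∀ δ : ℝ, 0 < δ → ∃ K : ℝ, 1 ≤ K ∧ ∀ T : X →L[ℝ] X, (∀ n : ℕ, δ ≤ |e' n (T (e n))|) →
          ∀ ε : ℝ, 0 < ε → ∃ R S : X →L[ℝ] X,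
            S.comp (T.comp R) = ContinuousLinearMap.id ℝ X ∧ ‖R‖ * ‖S‖ ≤ K + ε) :=
  Pool.Agent.H145Z.FP.main
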